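import Pool.Agent.Work.MP_d32e04_co.Main
import Pool.Agent.Work.MP_d32e04_co.Extr
import Pool.Agent.Work.MP_d32e04_co.TbBal
import Pool.Agent.Work.MP_d32e04_co.NCB
import Pool.Agent.Work.MP_d32e04_co.Split
import Pool.Agent.Work.MP_d32e04_co.Match
import Pool.Agent.Work.MP_d32e04_co.KST
import Pool.Agent.Work.MP_d32e04_co.Abs
import Pool.Agent.Work.MP_d32e04_co.Absorb
import Pool.Agent.Work.MP_d32e04_co.Reg
import Pool.Agent.Work.MP_d32e04_co.LP
import Pool.Agent.Work.MP_d32e04_co.Pair
import Pool.Agent.Work.MP_d32e04_co.Almost0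
import Pool.Agent.Work.MP_d32e04_co.Almost
import Pool.Agent.Work.MP_d32e04_co.Non1
import Pool.Agent.Work.MP_d32e04_co.GoodPair
import Pool.Agent.Work.MP_d32e04_co.Parity
import Pool.Agent.Work.MP_d32e04_co.Non2
import Pool.Agent.Work.MP_d32e04_co.Ham
import Pool.Agent.Work.MP_d32e04_co.Half
import Pool.Agent.Work.MP_d32e04_co.ParH

/-!
MP_d32e04_co, Q1: the minimum degree thresholds for perfect `H`-subdivision tilings hold up to
an additive constant depending only on `H`.
-/

set_option autoImplicit false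

namespace Pool.Agent.Results.MP_d32e04_co.SubdivisionTilings

open Pool.Agent.MP_d32e04

theorem result :
    ∀ (h : ℕ) (H : SimpleGraph (Fin h)), (∃ u v, H.Adj u v) →
      ∃ C : ℝ, ∀ n : ℕ, 0 < n →
        (hcf H ≠ 2 → (deltaSub n H : ℝ) ≤ (1 - 1 / xiStar H) * n + C) ∧
        (hcf H = 2 → Odd n → (deltaSub n H : ℝ) ≤ 1 / 2 * n + C) ∧
        (hcf H = 2 → Even n → (deltaSub n H : ℝ) ≤ (1 - 1 / xiStar H) * n + C) := by
  have hTb : TbTiledStmt := tbTiled tile
  have hAb : AbsorbStmt := absorb abs_family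
  have hAl : AlmostStmt := almost (almost0 reg lp (pair kstEx))
  exact main (half ham) parH (extr tile hTb (ncb hTb) split matching)
    (non1 hTb tbBal kstCount hAb hAl)
    (non2 hTb tile tbBal kstCount hAb hAl goodPair (parity tile hTb tbBal kstEx))

end Pool.Agent.Results.MP_d32e04_co.SubdivisionTilings
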